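import Pool.Agent.U709.FF.Stm

set_option autoImplicit false

/-!
Project FF (helper709, MP_5273fc_al), package AN (helper59): products of the distances of powers to one.
-/

open Filter Topology

namespace Pool.Agent.U59.FF.AN

open Pool.Agent.U709.FF

/-- simultaneous recurrence of finitely many unimodular numbers -/
theorem recur (ι : Type) [Fintype ι] (w : ι → ℂ) (hw : ∀ i, ‖w i‖ = 1) (M : ℕ) {ε : ℝ} (hε : 0 < ε)
    (K : ℕ) : ∃ k, K ≤ k ∧ ∀ i, ‖w i ^ (M * k) - 1‖ < ε := by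
  have hb : ∀ n : ℕ, (fun i => w i ^ (M * n)) ∈ Metric.closedBall (0 : ι → ℂ) 1 := by
    intro n
    rw [mem_closedBall_zero_iff, pi_norm_le_iff_of_nonneg zero_le_one]
    intro i
    rw [norm_pow, hw, one_pow]
  obtain ⟨a, -, φ, hφ, hlim⟩ := tendsto_subseq_of_bounded Metric.isBounded_closedBall hb
  have hc := hlim.cauchySeq
  obtain ⟨N, hN⟩ := Metric.cauchySeq_iff'.1 hc ε hε
  have hge : φ N + K ≤ φ (N + K) := by
    rw [Nat.add_comm N K, Nat.add_comm (φ N) K]
    exact hφ.add_le_nat K N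
  refine ⟨φ (N + K) - φ N, by omega, fun i => ?_⟩
  have h1 := hN (N + K) (by omega)
  have h2 : dist (w i ^ (M * φ (N + K))) (w i ^ (M * φ N)) < ε :=
    lt_of_le_of_lt (dist_le_pi_dist (fun i => w i ^ (M * φ (N + K))) (fun i => w i ^ (M * φ N)) i) h1
  have h3 : φ (N + K) = φ N + (φ (N + K) - φ N) := by omega
  rw [dist_eq_norm] at h2
  rw [h3, mul_add, pow_add] at h2
  have h4 : w i ^ (M * φ N) * w i ^ (M * (φ (N + K) - φ N)) - w i ^ (M * φ N) =
      w i ^ (M * φ N) * (w i ^ (M * (φ (N + K) - φ N)) - 1) := by ring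
  rw [h4, norm_mul, norm_pow, hw, one_pow, one_mul] at h2
  exact h2

/-- PACKAGE AN. -/
theorem t_AN : AN := by
  classical
  intro ι _ z M hM hz hj c
  obtain ⟨j, hj⟩ := hj
  set w : ι → ℂ := fun i => if ‖z i‖ = 1 then z i else 1 with hwdef
  have hw : ∀ i, ‖w i‖ = 1 := by
    intro i
    by_cases h : ‖z i‖ = 1
    · simp [hwdef, h]
    · simp [hwdef, h]
  set d : ι → ℝ := fun i => if ‖z i‖ = 1 then ‖z i - 1‖ / 2 else |‖z i‖ - 1| with hddef
  have hd : ∀ i, 0 < d i := by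
    intro i
    by_cases h : ‖z i‖ = 1
    · simp only [hddef, h, if_true]
      have : 0 < ‖z i - 1‖ := norm_pos_iff.2 (sub_ne_zero.2 (hz i))
      linarith
    · simp only [hddef, h, if_false]
      exact abs_pos.2 (sub_ne_zero.2 h)
  have hne : (Finset.univ : Finset ι).Nonempty := ⟨j, Finset.mem_univ j⟩
  obtain ⟨ε, hε, hεd⟩ : ∃ ε : ℝ, 0 < ε ∧ ∀ i, ε ≤ d i := by
    refine ⟨Finset.univ.inf' hne d, ?_, fun i => Finset.inf'_le _ (Finset.mem_univ i)⟩
    rw [Finset.lt_inf'_iff]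
    exact fun i _ => hd i
  set D : ℝ := ∏ i ∈ Finset.univ.erase j, d i with hD
  have hDpos : 0 < D := Finset.prod_pos fun i _ => hd i
  have hlim : Tendsto (fun k : ℕ => D * (‖z j‖ ^ k - 1)) atTop atTop :=
    (tendsto_atTop_add_const_right _ (-1 : ℝ) (tendsto_pow_atTop_atTop_of_one_lt hj)).const_mul_atTop
      hDpos
  obtain ⟨K, hK⟩ := eventually_atTop.1 (hlim.eventually_gt_atTop c)
  obtain ⟨k, hkK, hk⟩ := recur ι w hw M hε K
  refine ⟨k, (hK k hkK).trans_le ?_⟩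
  have hfac : ∀ i, d i ≤ ‖z i ^ (1 + M * k) - 1‖ := by
    intro i
    rcases lt_trichotomy ‖z i‖ 1 with h | h | h
    · have e : d i = 1 - ‖z i‖ := by
        simp only [hddef, h.ne, if_false]
        rw [abs_sub_comm, abs_of_pos (by linarith)]
      rw [e]
      have h1 : ‖z i‖ ^ (1 + M * k) ≤ ‖z i‖ := by
        have := pow_le_pow_of_le_one (norm_nonneg (z i)) h.le (show 1 ≤ 1 + M * k by omega)
        simpa using this
      have h2 : ‖(1 : ℂ)‖ - ‖z i ^ (1 + M * k)‖ ≤ ‖z i ^ (1 + M * k) - 1‖ := by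
        rw [norm_sub_rev]
        exact norm_sub_norm_le _ _
      rw [norm_one, norm_pow] at h2
      linarith
    · have e : d i = ‖z i - 1‖ / 2 := by simp only [hddef, h, if_true]
      have hwi : w i = z i := by simp only [hwdef, h, if_true]
      have h1 := hk i
      rw [hwi] at h1
      have h2 := hεd i
      have h3 : z i - 1 = (z i ^ (1 + M * k) - 1) - z i * (z i ^ (M * k) - 1) := by
        rw [pow_add, pow_one]; ring
      have h4 : ‖z i - 1‖ ≤ ‖z i ^ (1 + M * k) - 1‖ + ‖z i ^ (M * k) - 1‖ := by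
        calc ‖z i - 1‖ = ‖(z i ^ (1 + M * k) - 1) - z i * (z i ^ (M * k) - 1)‖ := by rw [← h3]
          _ ≤ ‖z i ^ (1 + M * k) - 1‖ + ‖z i * (z i ^ (M * k) - 1)‖ := norm_sub_le _ _
          _ = _ := by rw [norm_mul, h, one_mul]
      rw [e] at h2 ⊢
      linarith
    · have e : d i = ‖z i‖ - 1 := by
        simp only [hddef, h.ne', if_false]
        rw [abs_of_pos (by linarith)]
      rw [e]
      have h1 : ‖z i‖ ≤ ‖z i‖ ^ (1 + M * k) := by
        have := pow_le_pow_right₀ h.le (show 1 ≤ 1 + M * k by omega)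
        simpa using this
      have h2 : ‖z i ^ (1 + M * k)‖ - ‖(1 : ℂ)‖ ≤ ‖z i ^ (1 + M * k) - 1‖ := norm_sub_norm_le _ _
      rw [norm_one, norm_pow] at h2
      linarith
  have hjfac : ‖z j‖ ^ k - 1 ≤ ‖z j ^ (1 + M * k) - 1‖ := by
    have h1 : ‖z j‖ ^ k ≤ ‖z j‖ ^ (1 + M * k) := by
      apply pow_le_pow_right₀ hj.le
      nlinarith
    have h2 : ‖z j ^ (1 + M * k)‖ - ‖(1 : ℂ)‖ ≤ ‖z j ^ (1 + M * k) - 1‖ := norm_sub_norm_le _ _
    rw [norm_one, norm_pow] at h2
    linarith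
  rw [← Finset.prod_erase_mul _ _ (Finset.mem_univ j)]
  have h5 : (0 : ℝ) ≤ ‖z j‖ ^ k - 1 := by
    have := one_le_pow₀ hj.le (n := k)
    linarith
  exact mul_le_mul (Finset.prod_le_prod (fun i _ => (hd i).le) fun i _ => hfac i) hjfac h5
    (Finset.prod_nonneg fun i _ => norm_nonneg _)

end Pool.Agent.U59.FF.AN
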